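import Pool.Agent.Run7.h293.SQ.E

/-!
# Isometries and tensor invariants
-/

set_option autoImplicit false
set_option linter.unusedSectionVars false

namespace Run7.h293.ST

open Module

section gen

variable {K Y : Type} [Field K] [AddCommGroup Y] [Module K Y]

/-- the transvection `x ↦ x + c ω(x, v) v` -/
def tv (ω : Y →ₗ[K] Y →ₗ[K] K) (v : Y) (c : K) : End K Y := 1 + c • (ω.flip v).smulRight v

theorem tv_apply (ω : Y →ₗ[K] Y →ₗ[K] K) (v : Y) (c : K) (x : Y) :
    tv ω v c x = x + (c * ω x v) • v := by
  unfold tv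
  rw [LinearMap.add_apply, LinearMap.smul_apply, LinearMap.smulRight_apply, Module.End.one_apply,
    LinearMap.flip_apply, smul_smul]

variable {ω : Y →ₗ[K] Y →ₗ[K] K} (halt : ∀ x, ω x x = 0)

include halt in
theorem skew (x y : Y) : ω x y = -ω y x := by
  have h := halt (x + y)
  simp only [map_add, LinearMap.add_apply, halt, zero_add, add_zero] at h
  linear_combination h

include halt in
theorem tv_inv (v : Y) (c : K) : tv ω v (-c) * tv ω v c = 1 := by
  apply LinearMap.ext
  intro x
  rw [Module.End.mul_apply, tv_apply, tv_apply, map_add, LinearMap.add_apply, map_smul,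
    LinearMap.smul_apply, halt v, smul_zero, add_zero, Module.End.one_apply, add_assoc,
    ← add_smul]
  rw [show c * ω x v + -c * ω x v = 0 by ring, zero_smul, add_zero]

include halt in
theorem tv_isom (v : Y) (c : K) (x y : Y) : ω (tv ω v c x) (tv ω v c y) = ω x y := by
  rw [tv_apply, tv_apply]
  simp only [map_add, map_smul, LinearMap.add_apply, LinearMap.smul_apply, smul_eq_mul]
  rw [halt v, skew halt v y]
  ring

/-- The isometries which preserve all `W i`. -/
structure IsIso {m : ℕ} (ω : Y →ₗ[K] Y →ₗ[K] K) (W : Fin m → Submodule K Y) (g : End K Y) :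
    Prop where
  isom : ∀ x y, ω (g x) (g y) = ω x y
  pres : ∀ i, ∀ x ∈ W i, g x ∈ W i

variable {m : ℕ} {W : Fin m → Submodule K Y}

include halt in
theorem tv_isIso (horth : ∀ i j, i ≠ j → ∀ x ∈ W i, ∀ y ∈ W j, ω x y = 0) {i : Fin m} {v : Y}
    (hv : v ∈ W i) (c : K) : IsIso ω W (tv ω v c) := by
  refine ⟨tv_isom halt v c, fun j x hx => ?_⟩
  rw [tv_apply]
  by_cases h : j = i
  · subst h
    exact (W j).add_mem hx ((W j).smul_mem _ hv)
  · rw [horth j i h x hx v hv, mul_zero, zero_smul, add_zero]
    exact hx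

theorem isIso_mul {g h : End K Y} (hg : IsIso ω W g) (hh : IsIso ω W h) : IsIso ω W (g * h) :=
  ⟨fun x y => by rw [Module.End.mul_apply, Module.End.mul_apply, hg.isom, hh.isom],
    fun i x hx => hg.pres i _ (hh.pres i x hx)⟩

/-- **The isometries preserving the `W i` are products of transvections.** -/
theorem generated [FiniteDimensional K Y] (hnd : ∀ x, (∀ y, ω x y = 0) → x = 0)
    (halt : ∀ x, ω x x = 0)
    (horth : ∀ i j, i ≠ j → ∀ x ∈ W i, ∀ y ∈ W j, ω x y = 0) (htop : ⨆ i, W i = ⊤)
    {P : End K Y → Prop} (h1 : P 1) (hmul : ∀ a b, P a → P b → P (a * b))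
    (htv : ∀ i, ∀ v ∈ W i, ∀ c, P (tv ω v c)) :
    ∀ (n : ℕ) (g : End K Y), IsIso ω W g →
      finrank K Y ≤ finrank K (LinearMap.ker (g - 1)) + n → P g := by
  intro n
  induction n with
  | zero =>
    intro g _ hle
    have h2 : LinearMap.ker (g - 1) = ⊤ :=
      Submodule.eq_top_of_finrank_eq (le_antisymm (Submodule.finrank_le _) (by omega))
    have h3 : g - 1 = 0 := LinearMap.ker_eq_top.1 h2
    rw [sub_eq_zero.1 h3]
    exact h1
  | succ n ih =>
    intro g hg hle
    have hinc : ∀ t : End K Y, (∀ z, g z = z → t z = z) → (∃ x, g x ≠ x ∧ t (g x) = x) →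
        IsIso ω W t → P (t * g) := by
      rintro t ht ⟨x, hx, htx⟩ htI
      refine ih (t * g) (isIso_mul htI hg) ?_
      have h4 : LinearMap.ker (g - 1) < LinearMap.ker (t * g - 1) := by
        refine lt_of_le_of_ne ?_ ?_
        · intro z hz
          have h5 : g z = z := by
            rw [LinearMap.mem_ker, LinearMap.sub_apply, Module.End.one_apply, sub_eq_zero] at hz
            exact hz
          rw [LinearMap.mem_ker, LinearMap.sub_apply, Module.End.mul_apply, Module.End.one_apply,
            h5, ht z h5, sub_self]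
        · intro heq
          have h6 : x ∈ LinearMap.ker (t * g - 1) := by
            rw [LinearMap.mem_ker, LinearMap.sub_apply, Module.End.mul_apply,
              Module.End.one_apply, htx, sub_self]
          rw [← heq, LinearMap.mem_ker, LinearMap.sub_apply, Module.End.one_apply,
            sub_eq_zero] at h6
          exact hx h6
      have h7 := Submodule.finrank_lt_finrank_of_lt h4
      omega
    by_cases hone : g = 1
    · rw [hone]
      exact h1
    -- a vector in some `W i` which is not fixed
    obtain ⟨i, x, hxW, hx⟩ : ∃ i, ∃ x ∈ W i, g x ≠ x := by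
      by_contra hcon
      push Not at hcon
      apply hone
      have h8 : LinearMap.ker (g - 1) = ⊤ := by
        rw [eq_top_iff, ← htop]
        refine iSup_le fun i x hx => ?_
        rw [LinearMap.mem_ker, LinearMap.sub_apply, Module.End.one_apply, hcon i x hx, sub_self]
      exact sub_eq_zero.1 (LinearMap.ker_eq_top.1 h8)
    by_cases hA : ∃ z ∈ W i, ω (g z) z ≠ 0
    · obtain ⟨z, hzW, hz⟩ := hA
      have hz' : g z ≠ z := by
        intro h
        rw [h, halt] at hz
        exact hz rfl
      have hvW : z - g z ∈ W i := (W i).sub_mem hzW (hg.pres i z hzW)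
      have h9 : tv ω (z - g z) (ω (g z) z)⁻¹ (g z) = z := by
        rw [tv_apply, map_sub, halt, sub_zero, inv_mul_cancel₀ hz, one_smul]
        abel
      have h10 := hinc (tv ω (z - g z) (ω (g z) z)⁻¹) (fun y hy => by
        rw [tv_apply, map_sub]
        have h11 : ω y (g z) = ω y z := by
          conv_lhs => rw [← hy]
          exact hg.isom y z
        rw [h11, sub_self, mul_zero, zero_smul, add_zero]) ⟨z, hz', h9⟩
        (tv_isIso halt horth hvW _)
      have h12 := hmul _ _ (htv i _ hvW (-(ω (g z) z)⁻¹)) h10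
      rwa [← mul_assoc, tv_inv halt, one_mul] at h12
    · push Not at hA
      -- a vector `y`
      obtain ⟨y, hyW, hy⟩ : ∃ y ∈ W i, ω (g x - x) y ≠ 0 := by
        by_contra hcon
        push Not at hcon
        have h13 : g x - x = 0 := by
          apply hnd
          intro y
          have h14 : (⊤ : Submodule K Y) ≤ LinearMap.ker (ω (g x - x)) := by
            rw [← htop]
            refine iSup_le fun j y hy => ?_
            rw [LinearMap.mem_ker]
            by_cases hij : i = j
            · subst hij
              exact hcon y hy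
            · exact horth i j hij _ ((W i).sub_mem (hg.pres i x hxW) hxW) y hy
          exact LinearMap.mem_ker.1 (h14 Submodule.mem_top)
        exact hx (sub_eq_zero.1 h13)
      obtain ⟨u, hu⟩ : ∃ u, u = x + g y - y := ⟨_, rfl⟩
      have huW : u ∈ W i := by
        rw [hu]
        exact (W i).sub_mem ((W i).add_mem hxW (hg.pres i y hyW)) hyW
      have hgx := hA x hxW
      have hgy := hA y hyW
      have hgxy := hA (x + y) ((W i).add_mem hxW hyW)
      simp only [map_add, LinearMap.add_apply, hgx, hgy, zero_add, add_zero] at hgxy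
      have e1 : ω (g x) u = -ω (g x - x) y := by
        rw [hu, map_sub, map_add, hgx, hg.isom, map_sub, LinearMap.sub_apply]
        ring
      have e2 : ω u x = -ω (g x - x) y := by
        rw [hu, map_sub, LinearMap.sub_apply, map_add, LinearMap.add_apply, halt, map_sub,
          LinearMap.sub_apply, skew halt y x]
        linear_combination hgxy
      have n1 : ω (g x) u ≠ 0 := by rw [e1]; exact neg_ne_zero.2 hy
      have n2 : ω u x ≠ 0 := by rw [e2]; exact neg_ne_zero.2 hy
      have hzu : ∀ z, g z = z → ω z u = ω z x ∧ ω z (g x) = ω z x := by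
        intro z hz
        have h15 : ∀ a, ω z (g a) = ω z a := by
          intro a
          conv_lhs => rw [← hz]
          exact hg.isom z a
        refine ⟨?_, h15 x⟩
        rw [hu, map_sub, map_add, h15 y, add_sub_cancel_right]
      have hv1 : u - g x ∈ W i := (W i).sub_mem huW (hg.pres i x hxW)
      have hv2 : x - u ∈ W i := (W i).sub_mem hxW huW
      have t1 : tv ω (u - g x) (ω (g x) u)⁻¹ (g x) = u := by
        rw [tv_apply, map_sub, halt, sub_zero, inv_mul_cancel₀ n1, one_smul]
        abel
      have t2 : tv ω (x - u) (ω u x)⁻¹ u = x := by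
        rw [tv_apply, map_sub, halt, sub_zero, inv_mul_cancel₀ n2, one_smul]
        abel
      have h16 := hinc (tv ω (x - u) (ω u x)⁻¹ * tv ω (u - g x) (ω (g x) u)⁻¹) (fun z hz => by
        obtain ⟨h17, h18⟩ := hzu z hz
        have h19 : tv ω (u - g x) (ω (g x) u)⁻¹ z = z := by
          rw [tv_apply, map_sub, h17, h18, sub_self, mul_zero, zero_smul, add_zero]
        rw [Module.End.mul_apply, h19, tv_apply, map_sub, h17, sub_self, mul_zero, zero_smul,
          add_zero]) ⟨x, hx, by rw [Module.End.mul_apply, t1, t2]⟩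
        (isIso_mul (tv_isIso halt horth hv2 _) (tv_isIso halt horth hv1 _))
      have h20 := hmul _ _ (htv i _ hv2 (-(ω u x)⁻¹)) h16
      rw [← mul_assoc, ← mul_assoc, tv_inv halt, one_mul] at h20
      have h21 := hmul _ _ (htv i _ hv1 (-(ω (g x) u)⁻¹)) h20
      rwa [← mul_assoc, tv_inv halt, one_mul] at h21

end gen

section inv

variable {K Y : Type} [Field K] [CharZero K] [AddCommGroup Y] [Module K Y]

/-- **A nilpotent element of square zero which kills a form fixes it.** -/
theorem inv_of_der {k : ℕ} (φ : MultilinearMap K (fun _ : Fin k => Y) K) (N : End K Y)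
    (hN : ∀ x, N (N x) = 0) (h : ∀ x, ∑ j, φ (Function.update x j (N (x j))) = 0)
    (x : Fin k → Y) : φ (fun i => x i + N (x i)) = φ x := by
  classical
  obtain ⟨pw, hpw⟩ : ∃ pw : Finset (Fin k) → Fin k → Y,
      pw = fun J => J.piecewise (fun i => N (x i)) x := ⟨_, rfl⟩
  have key : ∀ J : Finset (Fin k), ∑ j ∈ Jᶜ, φ (pw (insert j J)) = 0 := by
    intro J
    have h1 := h (pw J)
    rw [← Finset.sum_add_sum_compl J] at h1
    have h2 : ∑ j ∈ J, φ (Function.update (pw J) j (N (pw J j))) = 0 := by
      refine Finset.sum_eq_zero fun j hj => ?_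
      have h3 : N (pw J j) = 0 := by
        rw [hpw]
        change N (J.piecewise (fun i => N (x i)) x j) = 0
        rw [Finset.piecewise_eq_of_mem _ _ _ hj, hN]
      rw [h3, MultilinearMap.map_update_zero]
    rw [h2, zero_add] at h1
    rw [← h1]
    refine Finset.sum_congr rfl fun j hj => ?_
    have hj' : j ∉ J := Finset.mem_compl.1 hj
    congr 1
    rw [hpw]
    change (insert j J).piecewise (fun i => N (x i)) x =
      Function.update (J.piecewise (fun i => N (x i)) x) j
        (N (J.piecewise (fun i => N (x i)) x j))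
    rw [Finset.piecewise_insert, Finset.piecewise_eq_of_notMem _ _ _ hj']
  have key2 : ∀ m : ℕ, ∑ J ∈ Finset.powersetCard (m + 1) Finset.univ, φ (pw J) = 0 := by
    intro m
    have h4 : ∑ J ∈ Finset.powersetCard m (Finset.univ : Finset (Fin k)),
        ∑ j ∈ Jᶜ, φ (pw (insert j J)) = 0 := Finset.sum_eq_zero fun J _ => key J
    have h5 : ∑ J ∈ Finset.powersetCard m (Finset.univ : Finset (Fin k)),
        ∑ j ∈ Jᶜ, φ (pw (insert j J)) =
        ∑ J ∈ Finset.powersetCard (m + 1) (Finset.univ : Finset (Fin k)), ∑ j ∈ J, φ (pw J) := by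
      rw [Finset.sum_sigma', Finset.sum_sigma']
      refine Finset.sum_bij' (fun a _ => ⟨insert a.2 a.1, a.2⟩) (fun a _ => ⟨a.1.erase a.2, a.2⟩)
        ?_ ?_ ?_ ?_ ?_
      · rintro ⟨J, j⟩ ha
        rw [Finset.mem_sigma, Finset.mem_powersetCard, Finset.mem_compl] at ha
        rw [Finset.mem_sigma, Finset.mem_powersetCard]
        exact ⟨⟨Finset.subset_univ _, by rw [Finset.card_insert_of_notMem ha.2, ha.1.2]⟩,
          Finset.mem_insert_self _ _⟩
      · rintro ⟨J, j⟩ ha
        rw [Finset.mem_sigma, Finset.mem_powersetCard] at ha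
        rw [Finset.mem_sigma, Finset.mem_powersetCard, Finset.mem_compl]
        exact ⟨⟨Finset.subset_univ _, by rw [Finset.card_erase_of_mem ha.2, ha.1.2]; rfl⟩,
          Finset.notMem_erase _ _⟩
      · rintro ⟨J, j⟩ ha
        rw [Finset.mem_sigma, Finset.mem_powersetCard, Finset.mem_compl] at ha
        exact Sigma.ext (Finset.erase_insert ha.2) HEq.rfl
      · rintro ⟨J, j⟩ ha
        rw [Finset.mem_sigma, Finset.mem_powersetCard] at ha
        exact Sigma.ext (Finset.insert_erase ha.2) HEq.rfl
      · rintro ⟨J, j⟩ ha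
        rfl
    rw [h5] at h4
    have h6 : ∑ J ∈ Finset.powersetCard (m + 1) (Finset.univ : Finset (Fin k)),
        ∑ j ∈ J, φ (pw J) = ((m + 1 : ℕ) : K) *
        ∑ J ∈ Finset.powersetCard (m + 1) (Finset.univ : Finset (Fin k)), φ (pw J) := by
      rw [Finset.mul_sum]
      refine Finset.sum_congr rfl fun J hJ => ?_
      rw [Finset.sum_const, (Finset.mem_powersetCard.1 hJ).2, nsmul_eq_mul]
    rw [h6] at h4
    exact (mul_eq_zero.1 h4).resolve_left (Nat.cast_ne_zero.2 (Nat.succ_ne_zero m))
  have h7 : (fun i => x i + N (x i)) = (fun i => N (x i)) + x := by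
    funext i
    rw [Pi.add_apply, add_comm]
  rw [h7, MultilinearMap.map_add_univ]
  have h8 : ∑ s : Finset (Fin k), φ (s.piecewise (fun i => N (x i)) x) =
      ∑ s ∈ (Finset.univ : Finset (Fin k)).powerset, φ (pw s) := by
    rw [hpw, Finset.powerset_univ]
  rw [h8, Finset.sum_powerset, Finset.sum_range_succ', Finset.sum_eq_zero fun m _ => key2 m,
    zero_add, Finset.powersetCard_zero, Finset.sum_singleton, hpw]
  change φ ((∅ : Finset (Fin k)).piecewise (fun i => N (x i)) x) = φ x
  rw [Finset.piecewise_empty]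

end inv

end Run7.h293.ST
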