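import Pool.Agent.Run7.h293.ST.Defs
import Pool.Agent.Run7.h293.ST.A

/-!
# The kernel of the multiplier in the motivic Galois group
-/

set_option autoImplicit false
set_option linter.unusedSectionVars false

namespace Run7.h293.ST

open Module Pool.Agent.W569.FM Run7.h293.SQ

variable {ℓ : ℕ} {K Y : Type} [Field K] [CharZero K] [TopologicalSpace K] [AddCommGroup Y]
  [Module K Y] [FiniteDimensional K Y] {V : SymplecticRep ℓ K Y} {S : Finset ℕ}

/-- isometries preserving the components fix the invariant forms -/
theorem iso_fix {m : ℕ} {W : Fin m → Submodule K Y} (hW : Splitting V W) {H : Subgroup (GF ℚ)}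
    (hH : H.FiniteIndex) {k : ℕ} {φ : MultilinearMap K (fun _ : Fin k => Y) K}
    (hφ : Invariant V H φ) {h : End K Y} (hh : IsIso V.ω W h) (x : Fin k → Y) :
    (φ fun i => h (x i)) = φ x := by
  have h1 := generated (P := fun h => ∀ x, (φ fun i => h (x i)) = φ x) V.nondegenerate
    V.alternating hW.orthogonal hW.direct.submodule_iSup_eq_top (fun x => rfl)
    (fun a b ha hb x => by
      have h2 := ha fun i => b (x i)
      have h3 := hb x
      rw [← h3, ← h2]
      rfl)
    (fun i v hv c x => by
      let N : End K Y := (c / 2) • sq V.ω v v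
      have hN : ∀ x, N x = (c * V.ω x v) • v := by
        intro x
        change (c / 2) • (sq V.ω v v) x = _
        unfold SQ.sq
        rw [LinearMap.add_apply, LinearMap.smulRight_apply, LinearMap.flip_apply, ← two_smul K,
          smul_smul, smul_smul, div_mul_cancel₀ c two_ne_zero]
      have h2 := inv_of_der φ N (fun x => by rw [hN, hN, map_smul, LinearMap.smul_apply,
        V.alternating, smul_zero, mul_zero, zero_smul]) (fun x => by
        have h3 := hW.invariants H hH k φ hφ i v hv v hv x
        have h4 : ∀ j, φ (Function.update x j (N (x j))) =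
            (c / 2) * φ (Function.update x j (sq V.ω v v (x j))) := by
          intro j
          change φ (Function.update x j ((c / 2) • (sq V.ω v v) (x j))) = _
          rw [MultilinearMap.map_update_smul, smul_eq_mul]
        rw [Finset.sum_congr rfl fun j _ => h4 j, ← Finset.mul_sum, h3, mul_zero]) x
      rw [← h2]
      congr 1
      funext i
      rw [tv_apply, hN]) (finrank K Y) h hh (by omega)
  exact h1 x

/-- the projector on a component -/
theorem exists_proj {m : ℕ} {W : Fin m → Submodule K Y} (hW : Splitting V W) (i : Fin m) :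
    ∃ f : End K Y, (∀ g x, f (V.ρ g x) = V.ρ g (f x)) ∧ (∀ x, f x ∈ W i) ∧ ∀ x ∈ W i, f x = x := by
  have hc : IsCompl (W i) (⨆ j ≠ i, W j) := by
    refine ⟨hW.direct.submodule_iSupIndep i, ?_⟩
    rw [codisjoint_iff, ← hW.direct.submodule_iSup_eq_top]
    refine le_antisymm (sup_le (le_iSup W i) (iSup₂_le fun j _ => le_iSup W j)) ?_
    refine iSup_le fun j => ?_
    by_cases hj : j = i
    · subst hj
      exact le_sup_left
    · exact le_sup_of_le_right (le_iSup₂_of_le j hj le_rfl)
  have hA : ∀ g, ∀ x ∈ (⨆ j ≠ i, W j), V.ρ g x ∈ (⨆ j ≠ i, W j) := by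
    intro g x hx
    have h5 : (⨆ j ≠ i, W j) ≤ (⨆ j ≠ i, W j).comap (V.ρ g) := by
      refine iSup₂_le fun j hj => ?_
      intro y hy
      exact (le_iSup₂ (f := fun j (_ : j ≠ i) => W j) j hj) (hW.stable j g y hy)
    exact h5 hx
  let f : End K Y := (W i).subtype ∘ₗ (W i).projectionOnto _ hc
  have hf1 : ∀ x ∈ W i, f x = x := by
    intro x hx
    change (((W i).projectionOnto _ hc x : W i) : Y) = x
    have := Submodule.projectionOnto_apply_left hc ⟨x, hx⟩
    rw [this]
  have hf2 : ∀ x ∈ (⨆ j ≠ i, W j), f x = 0 := by
    intro x hx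
    change (((W i).projectionOnto _ hc x : W i) : Y) = 0
    rw [Submodule.projectionOnto_apply_of_mem_right hc hx]
    rfl
  refine ⟨f, ?_, fun x => Subtype.prop _, hf1⟩
  intro g x
  have hx : x ∈ W i ⊔ (⨆ j ≠ i, W j) := by
    rw [hc.sup_eq_top]
    exact Submodule.mem_top
  obtain ⟨a, ha, b, hb, rfl⟩ := Submodule.mem_sup.1 hx
  rw [map_add, map_add, map_add, map_add, hf1 _ (hW.stable i g a ha), hf2 _ (hA g b hb),
    hf1 a ha, hf2 b hb, map_zero]

/-- **the equivalence** -/
theorem same_iff [T1Space K] (hS : SquarefreeConductor V S) (hF : NothingUnramified V)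
    (hC : InertiaConnected V) {𝒢 : Set (End K Y)} (hG : MotivicKernel V 𝒢) :
    SameTensors V 𝒢 ↔ SameEndomorphisms V 𝒢 := by
  obtain ⟨m, -, W, hW⟩ := splitting hS hF hC
  constructor
  · intro h f hf a ha x
    -- the bilinear form `ω (f x) y`
    let φ : MultilinearMap K (fun _ : Fin 2 => Y) K :=
      { toFun := fun x => V.ω (f (x 0)) (x 1)
        map_update_add' := by
          intro _ x i y z
          fin_cases i
          · simp [Function.update]
          · simp [Function.update]
        map_update_smul' := by
          intro _ x i c y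
          fin_cases i
          · simp [Function.update]
          · simp [Function.update] }
    have h1 : Invariant V ⊤ φ := by
      intro g _ hg x
      change V.ω (f (V.ρ g (x 0))) (V.ρ g (x 1)) = V.ω (f (x 0)) (x 1)
      rw [hf, V.similitude, hg, one_mul]
    have h2 := (h ⊤ inferInstance 2 φ).1 h1 a ha
    -- `a` is surjective
    have hinj : Function.Injective a := by
      rw [← LinearMap.ker_eq_bot, LinearMap.ker_eq_bot']
      intro y hy
      apply V.nondegenerate
      intro z
      rw [← hG.isometry a ha, hy, map_zero, LinearMap.zero_apply]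
    have hsurj := LinearMap.injective_iff_surjective.1 hinj
    rw [← sub_eq_zero]
    apply V.nondegenerate
    intro y
    obtain ⟨z, rfl⟩ := hsurj y
    rw [map_sub, LinearMap.sub_apply, hG.isometry a ha]
    have h3 := h2 ![x, z]
    have h4 : V.ω (f (a x)) (a z) = V.ω (f x) z := h3
    rw [h4, sub_self]
  · intro h H hH k φ
    constructor
    · intro hφ a ha
      refine iso_fix hW hH hφ ⟨hG.isometry a ha, fun i x hx => ?_⟩
      obtain ⟨f, hf1, hf2, hf3⟩ := exists_proj hW i
      have h5 := h f hf1 a ha x
      rw [hf3 x hx] at h5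
      rw [← h5]
      exact hf2 _
    · intro hφ g _ hg x
      exact hφ _ (hG.image g hg) x

/-- **the indecomposable case** -/
theorem same_of_indecomposable [T1Space K] (hS : SquarefreeConductor V S)
    (hF : NothingUnramified V) (hC : InertiaConnected V) (h1 : Indecomposable V)
    {𝒢 : Set (End K Y)} (hG : MotivicKernel V 𝒢) : SameTensors V 𝒢 := by
  rw [same_iff hS hF hC hG]
  obtain ⟨m, -, W, hW⟩ := splitting hS hF hC
  intro f hf a ha x
  have hWtop : ∀ i, W i = ⊤ := by
    intro i
    rcases irred_of_indecomposable hS hF hC h1 ⊤ inferInstance (W i)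
      (fun g _ x hx => hW.stable i g x hx) with h | h
    · exact absurd h (hW.ne_bot i)
    · exact h
  rcases Nat.eq_zero_or_pos m with h0 | hpos
  · subst h0
    have h2 := hW.direct.submodule_iSup_eq_top
    rw [iSup_of_empty] at h2
    have h3 : ∀ y : Y, y = 0 := by
      intro y
      have : y ∈ (⊥ : Submodule K Y) := by
        rw [h2]
        exact Submodule.mem_top
      exact (Submodule.mem_bot K).1 this
    rw [h3 (f (a x)), h3 (a (f x))]
  · obtain ⟨c, hc⟩ := hW.commutant ⊤ inferInstance f (fun g _ _ x => hf g x) ⟨0, hpos⟩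
    have h4 : ∀ y, f y = c • y := fun y => hc y (by rw [hWtop]; exact Submodule.mem_top)
    rw [h4, h4, map_smul]

end Run7.h293.ST
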