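import Pool.Agent.Run7.h293.SQ.Defs

/-!
# The kernel of the multiplier in the motivic Galois group: definitions
-/

set_option autoImplicit false

namespace Run7.h293.ST

open Module Pool.Agent.W569.FM Run7.h293.SQ

variable {ℓ : ℕ} {K Y : Type} [Field K] [TopologicalSpace K] [AddCommGroup Y] [Module K Y]
  (V : SymplecticRep ℓ K Y)

/-- The multilinear form `φ` is invariant under the elements `g` of `H` with `χ g = 1`. -/
def Invariant (H : Subgroup (GF ℚ)) {k : ℕ} (φ : MultilinearMap K (fun _ : Fin k => Y) K) : Prop :=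
  ∀ g ∈ H, V.χ g = 1 → ∀ x, (φ fun i => V.ρ g (x i)) = φ x

/-- `𝒢` is a set of isometries of `ω` and contains all `ρ g` with `χ g = 1`. The set of the
`K`-points of the kernel `𝒢₁` of the multiplier in the motivic Galois group has this property. -/
structure MotivicKernel (𝒢 : Set (End K Y)) : Prop where
  isometry : ∀ h ∈ 𝒢, ∀ x y, V.ω (h x) (h y) = V.ω x y
  image : ∀ g, V.χ g = 1 → V.ρ g ∈ 𝒢

/-- For every subgroup `H` of finite index the invariant multilinear forms for `H` and for `𝒢` are the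
same. -/
def SameTensors (𝒢 : Set (End K Y)) : Prop :=
  ∀ H : Subgroup (GF ℚ), H.FiniteIndex → ∀ (k : ℕ) (φ : MultilinearMap K (fun _ : Fin k => Y) K),
    Invariant V H φ ↔ ∀ h ∈ 𝒢, ∀ x, (φ fun i => h (x i)) = φ x

/-- All endomorphisms which commute with the Galois group commute with `𝒢`. -/
def SameEndomorphisms (𝒢 : Set (End K Y)) : Prop :=
  ∀ f : End K Y, (∀ g x, f (V.ρ g x) = V.ρ g (f x)) → ∀ h ∈ 𝒢, ∀ x, f (h x) = h (f x)

end Run7.h293.ST
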